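import Pool.Agent.Lib_helper74.OrFinal

/-!
The case `n = 4`: the configuration `θ*` does not maximise `|Θ_4|`.
-/

namespace Pool.Agent.Results.MP_89dd65_gt.FailsAtFour

open Pool.Agent.Lib_helper74.OrEval Pool.Agent.Lib_helper74.OrDefs
  Pool.Agent.Lib_helper74.OrFinal

/-- Cyclic positions of a better configuration, one row for each circle. -/
def tab : List (List ℕ) := [[8, 2, 4, 1, 3, 6, 7, 5, 0],
  [0, 1, 2, 7, 5, 8, 3, 6, 4],
  [0, 7, 3, 5, 1, 4, 6, 8, 2],
  [0, 5, 2, 1, 7, 6, 8, 3, 4]]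

/-- Position of the point with index `j` on the circle with index `i`. -/
def pos (i j : ℕ) : ℕ := (tab.getD i []).getD j 0

/-- Positions of the points of `θ*`. -/
def posStar (i j : ℕ) : ℕ := ((i + 1) * j) % 9

/-- Sign matrices of `θ*`. -/
def matStar : List (List (List Sg)) := [
  [[.m, .m, .m, .m, .m, .m, .m, .m],
    [.m, .m, .m, .m, .m, .m, .m],
    [.m, .m, .m, .m, .m, .m],
    [.m, .m, .m, .m, .m],
    [.m, .m, .m, .m],
    [.m, .m, .m],
    [.m, .m],
    [.m],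
    []],
  [[.m, .m, .m, .p, .m, .m, .m, .m],
    [.m, .m, .p, .p, .m, .m, .m],
    [.m, .p, .p, .p, .m, .m],
    [.p, .p, .p, .p, .m],
    [.m, .m, .m, .m],
    [.m, .m, .m],
    [.m, .m],
    [.m],
    []],
  [[.m, .m, .o, .m, .m, .o, .m, .m],
    [.m, .p, .o, .m, .p, .o, .m],
    [.p, .p, .o, .p, .p, .o],
    [.m, .m, .o, .m, .m],
    [.m, .p, .o, .m],
    [.p, .p, .o],
    [.m, .m],
    [.m],
    []],
  [[.m, .p, .m, .p, .m, .p, .m, .m],
    [.p, .p, .p, .p, .p, .p, .m],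
    [.m, .p, .m, .p, .m, .m],
    [.p, .p, .p, .p, .m],
    [.m, .p, .m, .m],
    [.p, .p, .m],
    [.m, .m],
    [.m],
    []]]

/-- Sign matrices of the better configuration. -/
def mat : List (List (List Sg)) := [
  [[.p, .p, .p, .p, .p, .p, .p, .p],
    [.p, .p, .m, .m, .m, .m, .p],
    [.m, .m, .m, .m, .m, .p],
    [.m, .m, .m, .m, .p],
    [.m, .p, .m, .p],
    [.p, .p, .p],
    [.m, .p],
    [.p],
    []],
  [[.p, .m, .p, .p, .p, .m, .m, .m],
    [.m, .p, .m, .p, .m, .m, .m],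
    [.p, .p, .p, .m, .m, .m],
    [.m, .m, .m, .m, .m],
    [.p, .m, .m, .m],
    [.m, .m, .m],
    [.m, .m],
    [.m],
    []],
  [[.p, .p, .p, .m, .p, .p, .p, .m],
    [.m, .m, .m, .m, .m, .m, .m],
    [.m, .m, .m, .m, .p, .m],
    [.m, .p, .m, .p, .m],
    [.p, .p, .p, .m],
    [.m, .p, .m],
    [.p, .m],
    [.m],
    []],
  [[.m, .p, .p, .p, .m, .m, .p, .m],
    [.p, .p, .p, .m, .m, .p, .m],
    [.m, .m, .m, .m, .m, .m],
    [.p, .m, .m, .m, .m],
    [.m, .m, .m, .m],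
    [.p, .p, .m],
    [.p, .m],
    [.m],
    []]]

lemma mats_star : mats 4 posStar = matStar := by decide +kernel

lemma mats_pos : mats 4 pos = mat := by decide +kernel

lemma ones_eq : rowF (fun _ => Sg.p) 9 = [.p, .p, .p, .p, .p, .p, .p, .p, .p] := by decide +kernel

lemma ev_star : ev 9 [.p, .p, .p, .p, .p, .p, .p, .p, .p] matStar = 90 := by decide +kernel

lemma ev_pos : ev 9 [.p, .p, .p, .p, .p, .p, .p, .p, .p] mat = 168 := by decide +kernel

lemma pos_lt : ∀ i < 4, ∀ j < 9, pos i j < 9 := by decide +kernel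

/-- The supremum of `|Θ_4|` is not attained at `θ*`. -/
theorem result : |Theta 4 (thetaStar 4)| < ⨆ θ : Fin (2 * 4 + 1) → Fin 4 → Circle, |Theta 4 θ| := by
  refine lt_iSup 4 (thetaStar 4) (cfg 4 pos) ?_
  have hs : thetaStar 4 = cfg 4 posStar := thetaStar_eq 4
  rw [hs]
  refine Theta_lt 4 posStar pos (fun i _ j _ => Nat.mod_lt _ (by norm_num)) pos_lt ?_
  have h1 : evp 4 posStar = 90 := by
    show ev 9 (rowF (fun _ => Sg.p) 9) (mats 4 posStar) = 90
    rw [mats_star, ones_eq, ev_star]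
  have h2 : evp 4 pos = 168 := by
    show ev 9 (rowF (fun _ => Sg.p) 9) (mats 4 pos) = 168
    rw [mats_pos, ones_eq, ev_pos]
  rw [h1, h2]
  norm_num

end Pool.Agent.Results.MP_89dd65_gt.FailsAtFour
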