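import Pool.Agent.Lib_helper74.OrFinal

/-!
The case `n = 6`, where `2 n + 1 = 13` is prime: `θ*` does not maximise `|Θ_6|`.
-/

namespace Pool.Agent.Results.MP_89dd65_gt.FailsAtSix

open Pool.Agent.Lib_helper74.OrEval Pool.Agent.Lib_helper74.OrDefs
  Pool.Agent.Lib_helper74.OrFinal

/-- Cyclic positions of a better configuration, one row for each circle. -/
def tab : List (List ℕ) := [[12, 2, 1, 7, 3, 9, 6, 5, 8, 10, 4, 11, 0],
  [1, 5, 10, 7, 2, 3, 0, 12, 9, 4, 6, 8, 11],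
  [0, 7, 8, 3, 1, 5, 6, 9, 11, 10, 12, 4, 2],
  [0, 9, 3, 5, 7, 11, 2, 10, 8, 4, 1, 12, 6],
  [0, 12, 6, 1, 5, 7, 11, 2, 8, 3, 9, 4, 10],
  [12, 11, 0, 1, 9, 2, 8, 3, 10, 6, 4, 7, 5]]

/-- Position of the point with index `j` on the circle with index `i`. -/
def pos (i j : ℕ) : ℕ := (tab.getD i []).getD j 0

/-- Positions of the points of `θ*`. -/
def posStar (i j : ℕ) : ℕ := ((i + 1) * j) % 13

/-- Sign matrices of `θ*`. -/
def matStar : List (List (List Sg)) := [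
  [[.m, .m, .m, .m, .m, .m, .m, .m, .m, .m, .m, .m],
    [.m, .m, .m, .m, .m, .m, .m, .m, .m, .m, .m],
    [.m, .m, .m, .m, .m, .m, .m, .m, .m, .m],
    [.m, .m, .m, .m, .m, .m, .m, .m, .m],
    [.m, .m, .m, .m, .m, .m, .m, .m],
    [.m, .m, .m, .m, .m, .m, .m],
    [.m, .m, .m, .m, .m, .m],
    [.m, .m, .m, .m, .m],
    [.m, .m, .m, .m],
    [.m, .m, .m],
    [.m, .m],
    [.m],
    []],
  [[.m, .m, .m, .m, .m, .p, .m, .m, .m, .m, .m, .m],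
    [.m, .m, .m, .m, .p, .p, .m, .m, .m, .m, .m],
    [.m, .m, .m, .p, .p, .p, .m, .m, .m, .m],
    [.m, .m, .p, .p, .p, .p, .m, .m, .m],
    [.m, .p, .p, .p, .p, .p, .m, .m],
    [.p, .p, .p, .p, .p, .p, .m],
    [.m, .m, .m, .m, .m, .m],
    [.m, .m, .m, .m, .m],
    [.m, .m, .m, .m],
    [.m, .m, .m],
    [.m, .m],
    [.m],
    []],
  [[.m, .m, .m, .p, .m, .m, .m, .p, .m, .m, .m, .m],
    [.m, .m, .p, .p, .m, .m, .p, .p, .m, .m, .m],
    [.m, .p, .p, .p, .m, .p, .p, .p, .m, .m],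
    [.p, .p, .p, .p, .p, .p, .p, .p, .m],
    [.m, .m, .m, .p, .m, .m, .m, .m],
    [.m, .m, .p, .p, .m, .m, .m],
    [.m, .p, .p, .p, .m, .m],
    [.p, .p, .p, .p, .m],
    [.m, .m, .m, .m],
    [.m, .m, .m],
    [.m, .m],
    [.m],
    []],
  [[.m, .m, .p, .m, .m, .p, .m, .m, .p, .m, .m, .m],
    [.m, .p, .p, .m, .p, .p, .m, .p, .p, .m, .m],
    [.p, .p, .p, .p, .p, .p, .p, .p, .p, .m],
    [.m, .m, .p, .m, .m, .p, .m, .m, .m],
    [.m, .p, .p, .m, .p, .p, .m, .m],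
    [.p, .p, .p, .p, .p, .p, .m],
    [.m, .m, .p, .m, .m, .m],
    [.m, .p, .p, .m, .m],
    [.p, .p, .p, .m],
    [.m, .m, .m],
    [.m, .m],
    [.m],
    []],
  [[.m, .p, .m, .m, .p, .m, .p, .m, .m, .p, .m, .m],
    [.p, .p, .m, .p, .p, .p, .p, .m, .p, .p, .m],
    [.m, .m, .m, .m, .p, .m, .m, .m, .m, .m],
    [.m, .p, .m, .p, .p, .m, .p, .m, .m],
    [.p, .p, .p, .p, .p, .p, .p, .m],
    [.m, .p, .m, .m, .p, .m, .m],
    [.p, .p, .m, .p, .p, .m],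
    [.m, .m, .m, .m, .m],
    [.m, .p, .m, .m],
    [.p, .p, .m],
    [.m, .m],
    [.m],
    []],
  [[.m, .p, .m, .p, .m, .p, .m, .p, .m, .p, .m, .m],
    [.p, .p, .p, .p, .p, .p, .p, .p, .p, .p, .m],
    [.m, .p, .m, .p, .m, .p, .m, .p, .m, .m],
    [.p, .p, .p, .p, .p, .p, .p, .p, .m],
    [.m, .p, .m, .p, .m, .p, .m, .m],
    [.p, .p, .p, .p, .p, .p, .m],
    [.m, .p, .m, .p, .m, .m],
    [.p, .p, .p, .p, .m],
    [.m, .p, .m, .m],
    [.p, .p, .m],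
    [.m, .m],
    [.m],
    []]]

/-- Sign matrices of the better configuration. -/
def mat : List (List (List Sg)) := [
  [[.p, .p, .p, .p, .p, .p, .p, .p, .p, .p, .p, .p],
    [.m, .m, .m, .m, .m, .m, .m, .m, .m, .m, .p],
    [.p, .p, .p, .p, .p, .m, .p, .m, .m, .p],
    [.m, .m, .m, .m, .m, .m, .m, .m, .p],
    [.m, .m, .p, .m, .m, .m, .m, .p],
    [.p, .p, .m, .p, .m, .m, .p],
    [.p, .m, .p, .m, .m, .p],
    [.m, .m, .m, .m, .p],
    [.p, .m, .m, .p],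
    [.m, .m, .p],
    [.p, .p],
    [.p],
    []],
  [[.m, .m, .m, .m, .p, .m, .m, .m, .m, .m, .m, .m],
    [.m, .m, .p, .p, .m, .m, .m, .m, .p, .m, .m],
    [.m, .p, .p, .m, .m, .m, .p, .p, .m, .m],
    [.p, .p, .m, .m, .m, .p, .p, .p, .m],
    [.p, .m, .m, .m, .m, .p, .m, .m],
    [.m, .m, .m, .m, .m, .m, .m],
    [.p, .p, .p, .p, .p, .p],
    [.m, .p, .p, .p, .m],
    [.p, .p, .p, .m],
    [.p, .m, .m],
    [.m, .m],
    [.m],
    []],
  [[.p, .p, .p, .p, .p, .p, .p, .m, .p, .p, .p, .m],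
    [.p, .p, .p, .p, .p, .p, .m, .m, .p, .p, .m],
    [.m, .m, .m, .m, .m, .m, .m, .m, .m, .m],
    [.p, .m, .m, .m, .m, .m, .m, .m, .m],
    [.m, .m, .m, .m, .m, .m, .m, .m],
    [.m, .m, .m, .m, .m, .m, .m],
    [.m, .m, .m, .p, .p, .m],
    [.m, .m, .p, .p, .m],
    [.p, .p, .p, .m],
    [.p, .p, .m],
    [.m, .m],
    [.m],
    []],
  [[.p, .m, .m, .p, .p, .m, .p, .p, .m, .m, .p, .m],
    [.m, .m, .m, .m, .m, .m, .m, .m, .m, .m, .m],
    [.p, .p, .p, .p, .p, .p, .p, .p, .p, .m],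
    [.p, .p, .m, .p, .p, .p, .m, .p, .m],
    [.p, .m, .p, .m, .m, .m, .p, .m],
    [.m, .p, .m, .m, .m, .m, .m],
    [.p, .p, .p, .p, .p, .m],
    [.m, .m, .m, .m, .m],
    [.m, .m, .p, .m],
    [.m, .p, .m],
    [.p, .m],
    [.m],
    []],
  [[.m, .m, .m, .m, .m, .p, .m, .m, .m, .m, .p, .m],
    [.p, .m, .p, .m, .p, .p, .p, .m, .p, .p, .m],
    [.m, .m, .m, .p, .m, .m, .m, .m, .p, .m],
    [.p, .m, .p, .p, .p, .m, .p, .p, .m],
    [.m, .p, .m, .m, .m, .m, .p, .m],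
    [.p, .p, .p, .m, .p, .p, .m],
    [.m, .m, .m, .m, .p, .m],
    [.m, .m, .m, .p, .m],
    [.m, .p, .p, .m],
    [.p, .p, .m],
    [.p, .m],
    [.m],
    []],
  [[.p, .m, .p, .p, .m, .p, .m, .p, .m, .m, .p, .p],
    [.m, .m, .p, .m, .p, .m, .p, .m, .m, .p, .p],
    [.p, .p, .m, .p, .m, .p, .m, .m, .p, .p],
    [.p, .m, .p, .m, .p, .m, .m, .p, .p],
    [.m, .m, .m, .m, .m, .m, .p, .p],
    [.p, .m, .p, .m, .m, .p, .p],
    [.m, .p, .m, .m, .p, .p],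
    [.p, .m, .m, .p, .p],
    [.m, .m, .p, .p],
    [.m, .p, .p],
    [.p, .p],
    [.p],
    []]]

lemma mats_star : mats 6 posStar = matStar := by decide +kernel

lemma mats_pos : mats 6 pos = mat := by decide +kernel

lemma ones_eq : rowF (fun _ => Sg.p) 13 = [.p, .p, .p, .p, .p, .p, .p, .p, .p, .p, .p, .p, .p] := by decide +kernel

lemma ev_star : ev 13 [.p, .p, .p, .p, .p, .p, .p, .p, .p, .p, .p, .p, .p] matStar = 5056 := by decide +kernel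

lemma ev_pos : ev 13 [.p, .p, .p, .p, .p, .p, .p, .p, .p, .p, .p, .p, .p] mat = -14096 := by decide +kernel

lemma pos_lt : ∀ i < 6, ∀ j < 13, pos i j < 13 := by decide +kernel

/-- The supremum of `|Θ_6|` is not attained at `θ*`. -/
theorem result : |Theta 6 (thetaStar 6)| < ⨆ θ : Fin (2 * 6 + 1) → Fin 6 → Circle, |Theta 6 θ| := by
  refine lt_iSup 6 (thetaStar 6) (cfg 6 pos) ?_
  have hs : thetaStar 6 = cfg 6 posStar := thetaStar_eq 6
  rw [hs]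
  refine Theta_lt 6 posStar pos (fun i _ j _ => Nat.mod_lt _ (by norm_num)) pos_lt ?_
  have h1 : evp 6 posStar = 5056 := by
    show ev 13 (rowF (fun _ => Sg.p) 13) (mats 6 posStar) = 5056
    rw [mats_star, ones_eq, ev_star]
  have h2 : evp 6 pos = -14096 := by
    show ev 13 (rowF (fun _ => Sg.p) 13) (mats 6 pos) = -14096
    rw [mats_pos, ones_eq, ev_pos]
  rw [h1, h2]
  norm_num

end Pool.Agent.Results.MP_89dd65_gt.FailsAtSix
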